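import Mathlib
import Pool.Agent.H35.RankCompletion.Defs
import Pool.Agent.H35.RankCompletion.Model

/-!
# The unit group `A(q)` of the rank completion of `⋃ M_{2^n}(F_q)` is contractible
-/

namespace Pool.Agent.Results.MP_242378_al.Contractible

open Pool.Agent.H35.RankCompletion

/-- For every field `F` (in particular for `F = F_q`), the space `A(F)` of invertible elements of
the rank-metric completion `M(F)` of `⋃ M_{2^n}(F)` is contractible. -/
theorem result (F : Type*) [Field F] : ContractibleSpace (A F) :=
  contractibleSpace_A F

end Pool.Agent.Results.MP_242378_al.Contractible
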